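import Pool.Agent.H763R2.Sq.Tri
import Pool.Agent.Y589.Sq.Abs

/-! The triangle version with weaker hypotheses and a lower bound for the side. -/

set_option autoImplicit false
open Complex Set Topology Metric

namespace Pool.Agent.Y589.Sq

open Pool.Agent.H763R2.Sq

variable {C : Set ℂ}

/-- points in a bounded component of the complement of `C` -/
def Inner (C : Set ℂ) (z : ℂ) : Prop :=
  z ∉ C ∧ Bornology.IsBounded (connectedComponentIn Cᶜ z)

theorem sg_nonpos_of (hC : IsClosed C) (hne : C.Nonempty) {z : ℂ} (h : ¬ Inner C z) :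
    sg C z ≤ 0 := by
  by_cases hz : z ∈ C
  · exact le_of_eq ((sg_eq_zero hC hne).2 hz)
  · apply sg_nonpos
    refine ⟨hz, fun hb => h ⟨hz, hb⟩⟩

/-- the triangle theorem for arbitrary closed sets, with a lower bound for the side -/
theorem tri2 (hC : IsClosed C) (hin : ∀ z ∈ East, z ∉ Outer C)
    (h0 : JoinedIn (C ∩ (U0 ∩ {A | ¬ Inner C (Dv A ⟨1, 1⟩)})) ⟨1, -1⟩ ⟨2, 0⟩)
    (h1 : JoinedIn (C ∩ (U1 ∩ {B | ¬ Inner C (Cv ⟨1, -1⟩ B)})) ⟨2, 0⟩ ⟨1, 1⟩) :
    ∃ z w : ℂ, 1 / 2 ≤ w.im ∧ z ∈ U0 ∪ U1 ∧ z + w ∈ U0 ∪ U1 ∧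
      z ∈ C ∧ z + w ∈ C ∧ z + w + I * w ∈ C ∧ z + I * w ∈ C := by
  obtain ⟨p, hp⟩ := h0
  obtain ⟨r, hr⟩ := h1
  have hne : C.Nonempty := ⟨_, (hp 0).1⟩
  have hpe : ∀ t, p.extend t ∈ C ∩ (U0 ∩ {A | ¬ Inner C (Dv A ⟨1, 1⟩)}) := by
    intro t
    obtain ⟨s, hs⟩ : p.extend t ∈ range p := by rw [← p.extend_range]; exact mem_range_self t
    rw [← hs]; exact hp s
  have hre : ∀ t, r.extend t ∈ C ∩ (U1 ∩ {B | ¬ Inner C (Cv ⟨1, -1⟩ B)}) := by
    intro t
    obtain ⟨s, hs⟩ : r.extend t ∈ range r := by rw [← r.extend_range]; exact mem_range_self t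
    rw [← hs]; exact hr s
  let σ : ℝ → ℂ := fun u => if u ≤ 1/2 then p.extend (2 * u) else r.extend (2 * u - 1)
  have hσ : Continuous σ := by
    refine Continuous.if_le (p.continuous_extend.comp (by fun_prop))
      (r.continuous_extend.comp (by fun_prop)) continuous_id continuous_const ?_
    intro x hx
    have e1 : 2 * x = 1 := by rw [hx]; norm_num
    have e2 : 2 * x - 1 = 0 := by rw [hx]; norm_num
    show p.extend (2 * x) = r.extend (2 * x - 1)
    rw [e2, e1, p.extend_one, r.extend_zero]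
  have hσ0 : ∀ u, u ≤ 1/2 → σ u ∈ C ∩ (U0 ∩ {A | ¬ Inner C (Dv A ⟨1, 1⟩)}) := by
    intro u hu
    simp only [σ]
    rw [if_pos hu]; exact hpe _
  have hσ1 : ∀ u, 1/2 ≤ u → σ u ∈ C ∩ (U1 ∩ {B | ¬ Inner C (Cv ⟨1, -1⟩ B)}) := by
    intro u hu
    rcases eq_or_lt_of_le hu with h | h
    · have : σ u = r.extend 0 := by
        simp only [σ]
        rw [if_pos h.ge, ← h, r.extend_zero]
        norm_num
      rw [this]; exact hre 0
    · simp only [σ]
      rw [if_neg (by linarith)]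
      exact hre _
  have e0 : σ 0 = ⟨1, -1⟩ := by
    simp only [σ]
    rw [if_pos (by norm_num)]
    simp
  have eh : σ (1/2) = ⟨2, 0⟩ := by
    simp only [σ]
    rw [if_pos le_rfl]
    norm_num
  have e1 : σ 1 = ⟨1, 1⟩ := by
    simp only [σ]
    rw [if_neg (by norm_num)]
    have : (2:ℝ) * 1 - 1 = 1 := by norm_num
    rw [this, r.extend_one]
  obtain ⟨u, hu, v, hv, hΦuv, hD, hCC⟩ := square_of_barrier2 hC hne hσ
    (fun u _ => by
      rcases le_total u (1/2) with h | h
      · exact (hσ0 u h).1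
      · exact (hσ1 u h).1)
    (Φ := fun A B => B.im - A.im - 1/2) (by fun_prop) 
    (fun u hu => by
      obtain ⟨g1, g2, g3⟩ := (hσ1 u hu.1).2.1
      apply pos_E hC hne hin
      · rw [Dv_re, e1]; simp only; linarith
      · rw [Dv_re, Dv_im, e1]; simp only
        rcases abs_cases ((σ u).im + (1 - (σ u).re)) with h | h <;> linarith)
    (fun u hu => by
      rw [e1]
      exact sg_nonpos_of hC hne (hσ0 u hu.2).2.2)
    (fun u hu => by
      obtain ⟨g1, g2, g3⟩ := (hσ0 u hu.2).2.1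
      apply pos_E hC hne hin
      · rw [Cv_re, e0]; simp only; linarith
      · rw [Cv_re, Cv_im, e0]; simp only
        rcases abs_cases ((σ u).im + ((σ u).re - 1)) with h | h <;> linarith)
    (fun u hu => by
      rw [e0]
      exact sg_nonpos_of hC hne (hσ1 u hu.1).2.2)
    (fun u hu => by
      obtain ⟨g1, g2, g3⟩ := (hσ0 u hu.2).2.1
      rw [e1]; simp only; linarith)
    (fun u hu => by
      obtain ⟨g1, g2, g3⟩ := (hσ1 u hu.1).2.1
      rw [e0]; simp only; linarith)
    (by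
      rw [eh, e1, e0]
      apply Complex.ext
      · rw [Cv_re, Dv_re]; norm_num
      · rw [Cv_im, Dv_im]; norm_num)
    (fun u v hu hv hΦ => by
      rcases le_total v (1/2) with h4 | h4
      · -- B in U0
        right
        obtain ⟨f1, f2, f3⟩ := (hσ0 v h4).2.1
        rcases le_total u (1/2) with h3 | h3
        · obtain ⟨g1, g2, g3⟩ := (hσ0 u h3).2.1
          apply pos_E hC hne hin
          · rw [Cv_re]; linarith
          · rw [Cv_re, Cv_im]
            rcases abs_cases ((σ v).im + ((σ v).re - (σ u).re)) with h | h <;> linarith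
        · obtain ⟨g1, g2, g3⟩ := (hσ1 u h3).2.1
          linarith
      · left
        obtain ⟨f1, f2, f3⟩ := (hσ1 v h4).2.1
        rcases le_total u (1/2) with h3 | h3
        · obtain ⟨g1, g2, g3⟩ := (hσ0 u h3).2.1
          apply pos_E hC hne hin
          · rw [Dv_re]; linarith
          · rw [Dv_re, Dv_im]
            rcases abs_cases ((σ u).im + ((σ v).re - (σ u).re)) with h | h <;> linarith
        · obtain ⟨g1, g2, g3⟩ := (hσ1 u h3).2.1
          apply pos_E hC hne hin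
          · rw [Dv_re]; linarith
          · rw [Dv_re, Dv_im]
            rcases abs_cases ((σ u).im + ((σ v).re - (σ u).re)) with h | h <;> linarith)
  have hin' : ∀ u, σ u ∈ C := by
    intro u
    rcases le_total u (1/2) with h | h
    · exact (hσ0 u h).1
    · exact (hσ1 u h).1
  have hU : ∀ u, σ u ∈ U0 ∪ U1 := by
    intro u
    rcases le_total u (1/2) with h | h
    · exact Or.inl (hσ0 u h).2.1
    · exact Or.inr (hσ1 u h).2.1
  refine ⟨σ u, σ v - σ u, ?_, hU u, ?_, hin' u, ?_, ?_, hD⟩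
  · rw [sub_im]; linarith
  · rw [add_sub_cancel]; exact hU v
  · rw [add_sub_cancel]; exact hin' v
  · rw [add_sub_cancel]; exact hCC

end Pool.Agent.Y589.Sq
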